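import Mathlib
import Pool.Agent.Helper580.Engel.LawMeet
import Pool.Agent.Helper580.Law.Realise

set_option autoImplicit false

namespace Pool.Agent.Helper580.Law

open Pool.Agent.Helper580.Engel

section Line

variable {G : Type*} [Group G]

theorem fixS_zpowers (φ : G →* (ℝ ≃o ℝ)) (a : G) (t : ℝ) :
    t ∈ FixS φ (Subgroup.zpowers a) ↔ φ a t = t := by
  constructor
  · intro h; exact h a (Subgroup.mem_zpowers a)
  · intro h s hs
    have : Subgroup.zpowers a ≤ St φ t := by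
      rw [Subgroup.zpowers_le]; exact h
    exact this hs

theorem meet_two (φ : G →* (ℝ ≃o ℝ)) (w : FreeGroup Bool) (hw : w ≠ 1)
    (hlaw : ∀ f : Bool → G, FreeGroup.lift f w = 1) (S T : Subgroup G) (hS : UA (FixS φ S))
    (hT : UA (FixS φ T)) : UA (FixS φ S ∩ FixS φ T) := by
  have h := law_meet φ w hw hlaw (fun b => cond b S T) (by
    intro b; cases b
    · exact hT
    · exact hS)
  exact h

/-- the elements with fixed points unboundedly far to the right form a subgroup -/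
def NN0 (φ : G →* (ℝ ≃o ℝ)) (w : FreeGroup Bool) (hw : w ≠ 1)
    (hlaw : ∀ f : Bool → G, FreeGroup.lift f w = 1) : Subgroup G where
  carrier := {g | UA {t | φ g t = t}}
  one_mem' := by
    intro M
    exact ⟨M + 1, phi_one φ _, by linarith⟩
  mul_mem' := by
    intro a b ha hb
    have h1 : UA (FixS φ (Subgroup.zpowers a)) := UA_mono (fun t ht => (fixS_zpowers φ a t).2 ht) ha
    have h2 : UA (FixS φ (Subgroup.zpowers b)) := UA_mono (fun t ht => (fixS_zpowers φ b t).2 ht) hb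
    refine UA_mono ?_ (meet_two φ w hw hlaw _ _ h1 h2)
    rintro t ⟨h3, h4⟩
    have h3' := (fixS_zpowers φ a t).1 h3
    have h4' := (fixS_zpowers φ b t).1 h4
    show φ (a * b) t = t
    rw [phi_mul, h4', h3']
  inv_mem' := by
    intro a ha
    refine UA_mono ?_ ha
    intro t ht
    exact (St φ t).inv_mem (x := a) ht

theorem mem_NN0 (φ : G →* (ℝ ≃o ℝ)) (w : FreeGroup Bool) (hw : w ≠ 1)
    (hlaw : ∀ f : Bool → G, FreeGroup.lift f w = 1) (g : G) :
    g ∈ NN0 φ w hw hlaw ↔ UA {t | φ g t = t} := Iff.rfl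

def PP0 (φ : G →* (ℝ ≃o ℝ)) : Set G := {g | ∃ M : ℝ, ∀ t, M < t → t < φ g t}

theorem PP0_one (φ : G →* (ℝ ≃o ℝ)) : (1 : G) ∉ PP0 φ := by
  rintro ⟨M, hM⟩
  have := hM (M + 1) (by linarith)
  rw [phi_one] at this
  exact lt_irrefl _ this

theorem PP0_mul (φ : G →* (ℝ ≃o ℝ)) {g h : G} (hg : g ∈ PP0 φ) (hh : h ∈ PP0 φ) : g * h ∈ PP0 φ := by
  obtain ⟨M, hM⟩ := hg
  obtain ⟨M', hM'⟩ := hh
  refine ⟨max M M', fun t ht => ?_⟩
  have h1 := hM' t (lt_of_le_of_lt (le_max_right _ _) ht)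
  have h2 := hM (φ h t) (lt_trans (lt_of_le_of_lt (le_max_left _ _) ht) h1)
  rw [phi_mul]
  exact lt_trans h1 h2

theorem PP0_conj (φ : G →* (ℝ ≃o ℝ)) {g : G} (hg : g ∈ PP0 φ) (h : G) : h * g * h⁻¹ ∈ PP0 φ := by
  obtain ⟨M, hM⟩ := hg
  refine ⟨φ h M, fun t ht => ?_⟩
  have h1 : M < φ h⁻¹ t := by
    have := (φ h⁻¹).strictMono ht
    rwa [phi_inv_apply] at this
  have h2 := (φ h).strictMono (hM _ h1)
  rw [phi_apply_inv] at h2
  rwa [phi_mul, phi_mul]

theorem not_both (φ : G →* (ℝ ≃o ℝ)) {g : G} (hg : UA {t | φ g t = t}) : g ∉ PP0 φ := by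
  rintro ⟨M, hM⟩
  obtain ⟨t, ht, htM⟩ := hg M
  have := hM t htM
  have h2 : φ g t = t := ht
  linarith

theorem trich (φ : G →* (ℝ ≃o ℝ)) (g : G) : UA {t | φ g t = t} ∨ g ∈ PP0 φ ∨ g⁻¹ ∈ PP0 φ := by
  by_contra hcon
  push Not at hcon
  obtain ⟨h1, h2, h3⟩ := hcon
  unfold UA at h1
  push Not at h1
  obtain ⟨M, hM⟩ := h1
  have hne : ∀ t, M < t → φ g t ≠ t := fun t ht h => by
    have := hM t h
    linarith
  have h2' : ∃ t, M < t ∧ φ g t < t := by
    by_contra hc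
    push Not at hc
    exact h2 ⟨M, fun t ht => lt_of_le_of_ne (hc t ht) (Ne.symm (hne t ht))⟩
  have h3' : ∃ t, M < t ∧ t < φ g t := by
    by_contra hc
    push Not at hc
    apply h3
    refine ⟨max M (φ g M), fun t ht => ?_⟩
    have ht1 : M < φ g⁻¹ t := by
      have := (φ g⁻¹).strictMono (lt_of_le_of_lt (le_max_right _ _) ht)
      rwa [phi_inv_apply] at this
    have h5 := hc _ ht1
    rw [phi_apply_inv] at h5
    refine lt_of_le_of_ne h5 ?_
    intro h6
    apply hne _ ht1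
    rw [phi_apply_inv]; exact h6
  obtain ⟨t1, ht1, h4⟩ := h2'
  obtain ⟨t2, ht2, h5⟩ := h3'
  have hc : Continuous (fun t => φ g t - t) := (φ g).continuous.sub continuous_id
  have h6 : (0:ℝ) ∈ Set.uIcc (φ g t1 - t1) (φ g t2 - t2) := by
    rw [Set.mem_uIcc]; left; constructor <;> linarith
  obtain ⟨t, ht, ht0⟩ := intermediate_value_uIcc (hc.continuousOn) h6
  have ht3 : M < t := by
    rw [Set.mem_uIcc] at ht
    rcases ht with h | h <;> linarith
  apply hne t ht3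
  have : φ g t - t = 0 := ht0
  linarith

theorem PP0_mul_fix (φ : G →* (ℝ ≃o ℝ)) (w : FreeGroup Bool) (hw : w ≠ 1)
    (hlaw : ∀ f : Bool → G, FreeGroup.lift f w = 1) {g n : G} (hg : g ∈ PP0 φ)
    (hn : n ∈ NN0 φ w hw hlaw) : g * n ∈ PP0 φ := by
  rcases trich φ (g * n) with h | h | h
  · exfalso
    have h1 : g * n ∈ NN0 φ w hw hlaw := h
    have h2 : g ∈ NN0 φ w hw hlaw := by
      have := (NN0 φ w hw hlaw).mul_mem h1 ((NN0 φ w hw hlaw).inv_mem hn)
      rwa [mul_inv_cancel_right] at this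
    exact not_both φ h2 hg
  · exact h
  · exfalso
    obtain ⟨M, hM⟩ := hg
    obtain ⟨M', hM'⟩ := h
    obtain ⟨t, ht, htM⟩ := hn (max M M')
    have ht' : φ n t = t := ht
    have h1 : t < φ g t := hM t (lt_of_le_of_lt (le_max_left _ _) htM)
    have h2 := hM' (φ g t) (lt_trans (lt_of_le_of_lt (le_max_right _ _) htM) h1)
    have h3 : φ (g * n)⁻¹ (φ g t) = t := by
      conv_lhs => rw [← ht', ← phi_mul φ g n]
      rw [phi_inv_apply]
    rw [h3] at h2
    linarith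

theorem NN0_conj (φ : G →* (ℝ ≃o ℝ)) (w : FreeGroup Bool) (hw : w ≠ 1)
    (hlaw : ∀ f : Bool → G, FreeGroup.lift f w = 1) {g : G} (hg : g ∈ NN0 φ w hw hlaw) (h : G) :
    h * g * h⁻¹ ∈ NN0 φ w hw hlaw := by
  intro M
  obtain ⟨t, ht, htM⟩ := hg (φ h⁻¹ M)
  refine ⟨φ h t, ?_, ?_⟩
  · show φ (h * g * h⁻¹) (φ h t) = φ h t
    rw [phi_mul, phi_inv_apply, phi_mul]
    have : φ g t = t := ht
    rw [this]
  · have := (φ h).strictMono htM
    rwa [phi_apply_inv] at this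

theorem fix_mul_PP0 (φ : G →* (ℝ ≃o ℝ)) (w : FreeGroup Bool) (hw : w ≠ 1)
    (hlaw : ∀ f : Bool → G, FreeGroup.lift f w = 1) {g n : G} (hg : g ∈ PP0 φ)
    (hn : n ∈ NN0 φ w hw hlaw) : n * g ∈ PP0 φ := by
  have h1 : n * g = (n * g * n⁻¹) * n := by group
  rw [h1]
  exact PP0_mul_fix φ w hw hlaw (PP0_conj φ hg n) hn

theorem exists_gen (φ : G →* (ℝ ≃o ℝ)) (w : FreeGroup Bool) (hw : w ≠ 1)
    (hlaw : ∀ f : Bool → G, FreeGroup.lift f w = 1) (A : Finset G)
    (hirr : ∀ t : ℝ, ∃ a ∈ A, φ a t ≠ t) : ∃ a ∈ A, a ∉ NN0 φ w hw hlaw := by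
  classical
  by_contra hcon
  push Not at hcon
  have key : ∀ B : Finset G, (∀ a ∈ B, a ∈ NN0 φ w hw hlaw) →
      UA (FixS φ (Subgroup.closure (B : Set G))) := by
    intro B
    induction B using Finset.induction_on with
    | empty =>
      intro _ M
      exact ⟨M + 1, fixS_closure φ _ _ (by simp), by linarith⟩
    | insert c B _ ih =>
      intro hB
      have h1 := ih (fun a ha => hB a (Finset.mem_insert_of_mem ha))
      have h2 : UA (FixS φ (Subgroup.zpowers c)) :=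
        UA_mono (fun t ht => (fixS_zpowers φ c t).2 ht) (hB c (Finset.mem_insert_self c B))
      refine UA_mono ?_ (meet_two φ w hw hlaw _ _ h1 h2)
      rintro t ⟨h3, h4⟩
      apply fixS_closure
      intro a ha
      rcases Finset.mem_insert.1 (Finset.mem_coe.1 ha) with rfl | ha
      · exact (fixS_zpowers φ a t).1 h4
      · exact h3 a (Subgroup.subset_closure ha)
  obtain ⟨t, ht, _⟩ := key A hcon 0
  obtain ⟨a, ha, hat⟩ := hirr t
  exact hat (ht a (Subgroup.subset_closure ha))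

end Line

end Pool.Agent.Helper580.Law
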