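import Mathlib

set_option autoImplicit false

namespace Pool.Agent.Helper580.Law

/-- shift action of the integers on the free group on the integers -/
noncomputable def shiftHom : Multiplicative ℤ →* MulAut (FreeGroup ℤ) where
  toFun n := FreeGroup.freeGroupCongr (Equiv.addRight (Multiplicative.toAdd n))
  map_one' := by
    ext x
    simp
  map_mul' m n := by
    ext x
    simp only [toAdd_mul, MulAut.mul_apply, FreeGroup.freeGroupCongr_apply, FreeGroup.map.comp]
    congr 2
    ext y
    simp only [Equiv.coe_addRight, Function.comp_apply]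
    ring

abbrev SD := SemidirectProduct (FreeGroup ℤ) (Multiplicative ℤ) shiftHom

/-- the embedding of the free group of rank k in the free group of rank two -/
noncomputable def emb (k : ℕ) : FreeGroup (Fin k) →* FreeGroup Bool :=
  FreeGroup.lift (fun i => (FreeGroup.of true) ^ (i : ℕ) * FreeGroup.of false *
    ((FreeGroup.of true) ^ (i : ℕ))⁻¹)

theorem emb_injective (k : ℕ) : Function.Injective (emb k) := by
  let ψ : FreeGroup Bool →* SD := FreeGroup.lift (fun b =>
    cond b (SemidirectProduct.inr (Multiplicative.ofAdd 1)) (SemidirectProduct.inl (FreeGroup.of 0)))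
  have h1 : ψ.comp (emb k) = (SemidirectProduct.inl (φ := shiftHom)).comp
      (FreeGroup.map (fun i : Fin k => ((i : ℕ) : ℤ))) := by
    apply FreeGroup.ext_hom
    intro i
    have e1 : (SemidirectProduct.inr (φ := shiftHom) (Multiplicative.ofAdd (1:ℤ))) ^ (i : ℕ) =
        SemidirectProduct.inr (φ := shiftHom) (Multiplicative.ofAdd ((i : ℕ) : ℤ)) := by
      rw [← map_pow]
      congr 1
      rw [← ofAdd_nsmul]
      simp
    simp only [emb, MonoidHom.comp_apply, FreeGroup.lift_apply_of, map_mul, map_pow, map_inv, ψ,
      cond_true, cond_false, FreeGroup.map.of]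
    rw [e1]
    have e2 := SemidirectProduct.inl_aut (φ := shiftHom) (Multiplicative.ofAdd ((i : ℕ) : ℤ)) (FreeGroup.of (0:ℤ))
    rw [map_inv] at e2
    rw [← e2]
    congr 1
    simp [shiftHom]
  have h2 : Function.Injective (ψ.comp (emb k)) := by
    rw [h1]
    have h3 : Function.Injective (FreeGroup.map (fun i : Fin k => ((i : ℕ) : ℤ))) := by
      apply FreeGroup.map_injective
      intro a b h
      have h' : ((a : ℕ) : ℤ) = ((b : ℕ) : ℤ) := h
      exact Fin.ext (by exact_mod_cast h')
    exact SemidirectProduct.inl_injective.comp h3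
  intro a b hab
  apply h2
  show ψ (emb k a) = ψ (emb k b)
  rw [hab]

/-- every law gives a law in two variables -/
theorem two_var {G : Type*} [Group G] (k : ℕ) (w : FreeGroup (Fin k)) (hw : w ≠ 1)
    (h : ∀ f : Fin k → G, FreeGroup.lift f w = 1) :
    ∃ v : FreeGroup Bool, v ≠ 1 ∧ ∀ f : Bool → G, FreeGroup.lift f v = 1 := by
  refine ⟨emb k w, ?_, ?_⟩
  · intro h1
    apply hw
    apply emb_injective k
    rw [h1, map_one]
  · intro f
    have h1 : (FreeGroup.lift f).comp (emb k) =
        FreeGroup.lift (fun i : Fin k => (f true) ^ (i : ℕ) * f false * ((f true) ^ (i : ℕ))⁻¹) := by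
      apply FreeGroup.ext_hom
      intro i
      simp [emb]
    have h2 := h (fun i : Fin k => (f true) ^ (i : ℕ) * f false * ((f true) ^ (i : ℕ))⁻¹)
    rw [← h1] at h2
    exact h2

end Pool.Agent.Helper580.Law
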