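import Mathlib
import Pool.Agent.Helper580.Law.Germ
import Pool.Agent.Helper580.Law.TwoVar

set_option autoImplicit false

namespace Pool.Agent.Helper580.Law

open Pool.Agent.Helper580.Engel

section Abstract

variable {G : Type*} [Group G]

/-- closure under products and the Conrad operation -/
inductive Q (B : Set G) : G → Prop
  | of (b : G) (h : b ∈ B) : Q B b
  | mul (f g : G) (hf : Q B f) (hg : Q B g) : Q B (f * g)
  | op (f g : G) (hf : Q B f) (hg : Q B g) : Q B (f ^ 2 * g * f⁻¹)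

theorem Q_sub {B : Set G} (N : Subgroup G) (h : ∀ b ∈ B, b ∈ N) {x : G} (hx : Q B x) : x ∈ N := by
  induction hx with
  | of b hb => exact h b hb
  | mul f g _ _ hf hg => exact N.mul_mem hf hg
  | op f g _ _ hf hg => exact N.mul_mem (N.mul_mem (N.pow_mem hf 2) hg) (N.inv_mem hf)

/-- the structure given by germs at infinity -/
structure Germ (A : Finset G) where
  N : Subgroup G
  P : Set G
  hle : ∀ x ∈ Subgroup.closure (A : Set G), x ∈ N ∨ x ∈ P ∨ x⁻¹ ∈ P
  NH : N ≤ Subgroup.closure (A : Set G)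
  PH : ∀ x ∈ P, x ∈ Subgroup.closure (A : Set G)
  one : (1 : G) ∉ P
  mulPP : ∀ x ∈ P, ∀ y ∈ P, x * y ∈ P
  mulPN : ∀ x ∈ P, ∀ y ∈ N, x * y ∈ P
  mulNP : ∀ x ∈ N, ∀ y ∈ P, x * y ∈ P
  conjP : ∀ h ∈ Subgroup.closure (A : Set G), ∀ x ∈ P, h * x * h⁻¹ ∈ P
  conjN : ∀ h ∈ Subgroup.closure (A : Set G), ∀ x ∈ N, h * x * h⁻¹ ∈ N
  ex : ∃ a ∈ A, a ∉ N

theorem exists_signs (hg : ∀ A : Finset G, A.Nonempty → (1 : G) ∉ A → Nonempty (Germ A)) :
    ∀ (n : ℕ) (A : Finset G), A.card = n → (1 : G) ∉ A →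
      ∃ B : Set G, (∀ a ∈ A, a ∈ B ∨ a⁻¹ ∈ B) ∧ (∀ b ∈ B, b ∈ A ∨ b⁻¹ ∈ A) ∧ ¬ Q B 1 := by
  classical
  intro n
  induction n using Nat.strong_induction_on with
  | _ n ih =>
    intro A hA h1
    rcases A.eq_empty_or_nonempty with rfl | hne
    · refine ⟨∅, by simp, by simp, ?_⟩
      have : ∀ x : G, ¬ Q (∅ : Set G) x := by
        intro x hx
        induction hx with
        | of b hb => exact hb
        | mul f g _ _ hf _ => exact hf
        | op f g _ _ hf _ => exact hf
      exact this 1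
    obtain ⟨S⟩ := hg A hne h1
    obtain ⟨a0, ha0, ha0N⟩ := S.ex
    set A1 := A.filter (fun a => a ∈ S.N) with hA1
    have hcard : A1.card < n := by
      rw [← hA]
      apply Finset.card_lt_card
      refine ⟨Finset.filter_subset _ _, fun h => ?_⟩
      exact ha0N (Finset.mem_filter.1 (h ha0)).2
    obtain ⟨B1, hB1, hB1', hQ1⟩ := ih A1.card hcard A1 rfl (fun h => h1 (Finset.mem_filter.1 h).1)
    have hB1N : ∀ b ∈ B1, b ∈ S.N := by
      intro b hb
      rcases hB1' b hb with h | h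
      · exact (Finset.mem_filter.1 h).2
      · have := S.N.inv_mem (Finset.mem_filter.1 h).2
        rwa [inv_inv] at this
    refine ⟨B1 ∪ {b | b ∈ S.P ∧ (b ∈ A ∨ b⁻¹ ∈ A)}, ?_, ?_, ?_⟩
    · intro a ha
      rcases S.hle a (Subgroup.subset_closure ha) with h | h | h
      · rcases hB1 a (Finset.mem_filter.2 ⟨ha, h⟩) with h2 | h2
        · exact Or.inl (Or.inl h2)
        · exact Or.inr (Or.inl h2)
      · exact Or.inl (Or.inr ⟨h, Or.inl ha⟩)
      · exact Or.inr (Or.inr ⟨h, Or.inr (by rwa [inv_inv])⟩)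
    · rintro b (hb | hb)
      · rcases hB1' b hb with h | h
        · exact Or.inl (Finset.mem_filter.1 h).1
        · exact Or.inr (Finset.mem_filter.1 h).1
      · exact hb.2
    · have key : ∀ x, Q (B1 ∪ {b | b ∈ S.P ∧ (b ∈ A ∨ b⁻¹ ∈ A)}) x → x ∈ S.P ∨ Q B1 x := by
        intro x hx
        induction hx with
        | of b hb =>
          rcases hb with hb | hb
          · exact Or.inr (Q.of b hb)
          · exact Or.inl hb.1
        | mul f g _ _ hf hg =>
          rcases hf with hf | hf <;> rcases hg with hg | hg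
          · exact Or.inl (S.mulPP f hf g hg)
          · exact Or.inl (S.mulPN f hf g (Q_sub S.N hB1N hg))
          · exact Or.inl (S.mulNP f (Q_sub S.N hB1N hf) g hg)
          · exact Or.inr (Q.mul f g hf hg)
        | op f g _ _ hf hg =>
          have e : f ^ 2 * g * f⁻¹ = f * (f * g * f⁻¹) := by rw [pow_two]; group
          rcases hf with hf | hf <;> rcases hg with hg | hg
          · left; rw [e]; exact S.mulPP f hf _ (S.conjP f (S.PH f hf) g hg)
          · left; rw [e]; exact S.mulPN f hf _ (S.conjN f (S.PH f hf) g (Q_sub S.N hB1N hg))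
          · left; rw [e]
            have hfN := Q_sub S.N hB1N hf
            exact S.mulNP f hfN _ (S.conjP f (S.NH hfN) g hg)
          · exact Or.inr (Q.op f g hf hg)
      intro h
      rcases key 1 h with h | h
      · exact S.one h
      · exact hQ1 h

/-- compactness -/
theorem exists_cone (hg : ∀ A : Finset G, A.Nonempty → (1 : G) ∉ A → Nonempty (Germ A)) :
    ∃ P : Set G, (1 : G) ∉ P ∧ (∀ x, x ≠ 1 → x ∈ P ∨ x⁻¹ ∈ P) ∧ (∀ x ∈ P, ∀ y ∈ P, x * y ∈ P) ∧
      (∀ x ∈ P, ∀ y ∈ P, x ^ 2 * y * x⁻¹ ∈ P) := by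
  classical
  have h : ∀ A : Finset G, ∃ B : Set G, (∀ a ∈ A, a ≠ 1 → a ∈ B ∨ a⁻¹ ∈ B) ∧ ¬ Q B 1 := by
    intro A
    obtain ⟨B, hB1, _, hB3⟩ := exists_signs hg _ (A.erase 1) rfl (Finset.notMem_erase 1 A)
    exact ⟨B, fun a ha ha1 => hB1 a (Finset.mem_erase.2 ⟨ha1, ha⟩), hB3⟩
  choose B hB1 hB2 using h
  set U : Ultrafilter (Finset G) := Ultrafilter.of Filter.atTop with hU
  have hUle : (U : Filter (Finset G)) ≤ Filter.atTop := Ultrafilter.of_le _
  refine ⟨{x | ∀ᶠ A in (U : Filter (Finset G)), Q (B A) x}, ?_, ?_, ?_, ?_⟩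
  · intro h
    obtain ⟨A, hA⟩ := h.exists
    exact hB2 A hA
  · intro x hx
    have h1 : ∀ᶠ A in (U : Filter (Finset G)), Q (B A) x ∨ Q (B A) x⁻¹ := by
      have : ∀ᶠ A in (Filter.atTop : Filter (Finset G)), x ∈ A := by
        filter_upwards [Filter.eventually_ge_atTop ({x} : Finset G)] with A hA
        exact hA (Finset.mem_singleton_self x)
      filter_upwards [hUle this] with A hA
      rcases hB1 A x hA hx with h | h
      · exact Or.inl (Q.of _ h)
      · exact Or.inr (Q.of _ h)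
    exact Ultrafilter.eventually_or.1 h1
  · intro x hx y hy
    filter_upwards [hx, hy] with A h1 h2
    exact Q.mul _ _ h1 h2
  · intro x hx y hy
    filter_upwards [hx, hy] with A h1 h2
    exact Q.op _ _ h1 h2

end Abstract

theorem countable_closure {G : Type*} [Group G] (A : Finset G) :
    Countable (Subgroup.closure (A : Set G)) := by
  have h1 : Countable (FreeGroup ↥(A : Set G)) :=
    inferInstanceAs (Countable (Quot _))
  rw [FreeGroup.closure_eq_range]
  exact (Set.countable_range (FreeGroup.lift (fun x : ↥(A : Set G) => (x : G)))).to_subtype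

/-- germs at infinity of the dynamical realisation -/
theorem exists_germ {G : Type} [Group G] (lt : G → G → Prop) (hirr : ∀ a, ¬ lt a a)
    (htr : ∀ a b c, lt a b → lt b c → lt a c) (htot : ∀ a b, lt a b ∨ a = b ∨ lt b a)
    (hr : ∀ a b c, lt a b → lt (a * c) (b * c))
    (w : FreeGroup Bool) (hw : w ≠ 1) (hlaw : ∀ f : Bool → G, FreeGroup.lift f w = 1)
    (A : Finset G) (hne : A.Nonempty) (h1 : (1 : G) ∉ A) : Nonempty (Germ A) := by
  classical
  set H := Subgroup.closure (A : Set G) with hH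
  have hc : Countable H := countable_closure A
  let _ : LinearOrder H :=
    { le := fun a b => a = b ∨ lt a b
      lt := fun a b => lt a b
      le_refl := fun a => Or.inl rfl
      le_trans := by
        rintro a b c (rfl | h1) (rfl | h2)
        · exact Or.inl rfl
        · exact Or.inr h2
        · exact Or.inr h1
        · exact Or.inr (htr _ _ _ h1 h2)
      le_antisymm := by
        rintro a b (rfl | h1) (h | h2)
        · rfl
        · rfl
        · exact h.symm
        · exact absurd (htr _ _ _ h1 h2) (hirr _)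
      le_total := by
        intro a b
        rcases htot a b with h | h | h
        · exact Or.inl (Or.inr h)
        · exact Or.inl (Or.inl (Subtype.ext h))
        · exact Or.inr (Or.inr h)
      lt_iff_le_not_ge := by
        intro a b
        constructor
        · intro h
          refine ⟨Or.inr h, ?_⟩
          rintro (h2 | h2)
          · rw [h2] at h; exact hirr _ h
          · exact hirr _ (htr _ _ _ h h2)
        · rintro ⟨h | h, h2⟩
          · exact absurd (Or.inl h.symm) h2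
          · exact h
      toDecidableLE := Classical.decRel _ }
  have hltdef : ∀ a b : H, a < b ↔ lt (a : G) (b : G) := fun a b => Iff.rfl
  obtain ⟨a0, ha0⟩ := hne
  have ha01 : a0 ≠ 1 := fun h => h1 (h ▸ ha0)
  have ha0H : a0 ∈ H := Subgroup.subset_closure ha0
  -- a positive element
  obtain ⟨q, hq⟩ : ∃ q : H, lt (1 : G) (q : G) := by
    rcases htot 1 a0 with h | h | h
    · exact ⟨⟨a0, ha0H⟩, h⟩
    · exact absurd h.symm ha01
    · refine ⟨⟨a0⁻¹, H.inv_mem ha0H⟩, ?_⟩
      have := hr _ _ a0⁻¹ h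
      rwa [mul_inv_cancel, one_mul] at this
  have : NoMaxOrder H := ⟨fun a => ⟨q * a, by
    rw [hltdef]
    have := hr _ _ (a : G) hq
    rwa [one_mul] at this⟩⟩
  have : NoMinOrder H := ⟨fun a => ⟨q⁻¹ * a, by
    rw [hltdef]
    have h2 := hr _ _ ((q : G)⁻¹ * (a : G)) hq
    rw [one_mul, mul_inv_cancel_left] at h2
    exact h2⟩⟩
  have : Nonempty H := ⟨1⟩
  let act : H →* (H ≃o H) :=
    { toFun := fun h =>
        { toFun := fun x => x * h⁻¹
          invFun := fun x => x * h
          left_inv := fun x => by simp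
          right_inv := fun x => by simp
          map_rel_iff' := by
            intro a b
            constructor
            · rintro (h2 | h2)
              · exact Or.inl (mul_right_cancel h2)
              · right
                have := hr _ _ (h : G) h2
                simpa using this
            · rintro (h2 | h2)
              · exact Or.inl (by rw [h2])
              · right
                exact hr _ _ ((h : G)⁻¹) h2 }
      map_one' := by
        ext x
        simp
      map_mul' := by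
        intro a b
        ext x
        simp [mul_assoc] }
  have hact : ∀ h x : H, act h x = x * h⁻¹ := fun h x => rfl
  obtain ⟨ρ, ι, hι, hρ, hup, hdown⟩ := Realise.realise act
  have hlawH : ∀ f : Bool → H, FreeGroup.lift f w = 1 := by
    intro f
    have h2 := hlaw (fun b => (f b : G))
    have h3 : (H.subtype.comp (FreeGroup.lift f)) = FreeGroup.lift (fun b => (f b : G)) := by
      apply FreeGroup.ext_hom
      intro b
      simp
    rw [← h3] at h2
    exact Subtype.ext h2
  -- no global fixed point, already for the generators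
  let A' : Finset H := A.attach.image (fun a => ⟨a.1, Subgroup.subset_closure a.2⟩)
  have hA' : ∀ a : G, ∀ ha : a ∈ A, (⟨a, Subgroup.subset_closure ha⟩ : H) ∈ A' := by
    intro a ha
    exact Finset.mem_image.2 ⟨⟨a, ha⟩, Finset.mem_attach _ _, rfl⟩
  have hcl : Subgroup.closure (A' : Set H) = ⊤ := by
    have h2 : (A' : Set H) = ((↑) : H → G) ⁻¹' (A : Set G) := by
      ext x
      constructor
      · intro hx
        obtain ⟨a, _, rfl⟩ := Finset.mem_image.1 (Finset.mem_coe.1 hx)
        exact a.2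
      · intro hx
        exact hA' x.1 hx
    rw [h2]
    exact Subgroup.closure_closure_coe_preimage
  have hirrA : ∀ t : ℝ, ∃ a ∈ A', ρ a t ≠ t := by
    intro t
    by_contra hcon
    push Not at hcon
    have h2 : t ∈ FixS ρ (Subgroup.closure (A' : Set H)) := fixS_closure ρ _ t hcon
    rw [hcl] at h2
    obtain ⟨x, hx⟩ := hup t
    obtain ⟨y, hy⟩ := hdown t
    have h3 := h2 (x⁻¹ * y) trivial
    have h4 := (ρ (x⁻¹ * y)).strictMono hy
    rw [hρ, h3, hact] at h4
    have h5 : y * (x⁻¹ * y)⁻¹ = x := by group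
    rw [h5] at h4
    exact lt_asymm h4 hx
  obtain ⟨a1, ha1, ha1N⟩ := exists_gen ρ w hw hlawH A' hirrA
  refine ⟨{
    N := (NN0 ρ w hw hlawH).map H.subtype
    P := {x | ∃ h : x ∈ H, (⟨x, h⟩ : H) ∈ PP0 ρ}
    hle := ?_, NH := ?_, PH := ?_, one := ?_, mulPP := ?_, mulPN := ?_, mulNP := ?_, conjP := ?_,
    conjN := ?_, ex := ?_ }⟩
  · intro x hx
    rcases trich ρ (⟨x, hx⟩ : H) with h | h | h
    · exact Or.inl ⟨⟨x, hx⟩, h, rfl⟩
    · exact Or.inr (Or.inl ⟨hx, h⟩)
    · exact Or.inr (Or.inr ⟨H.inv_mem hx, h⟩)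
  · rintro x ⟨y, _, rfl⟩
    exact y.2
  · rintro x ⟨h, _⟩
    exact h
  · rintro ⟨h, h2⟩
    exact PP0_one ρ h2
  · rintro x ⟨hx, hx2⟩ y ⟨hy, hy2⟩
    exact ⟨H.mul_mem hx hy, PP0_mul ρ hx2 hy2⟩
  · rintro x ⟨hx, hx2⟩ y ⟨z, hz, rfl⟩
    exact ⟨H.mul_mem hx z.2, PP0_mul_fix ρ w hw hlawH hx2 hz⟩
  · rintro x ⟨z, hz, rfl⟩ y ⟨hy, hy2⟩
    exact ⟨H.mul_mem z.2 hy, fix_mul_PP0 ρ w hw hlawH hy2 hz⟩
  · rintro h hh x ⟨hx, hx2⟩
    exact ⟨H.mul_mem (H.mul_mem hh hx) (H.inv_mem hh), PP0_conj ρ hx2 ⟨h, hh⟩⟩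
  · rintro h hh x ⟨z, hz, rfl⟩
    exact ⟨⟨h, hh⟩ * z * ⟨h, hh⟩⁻¹, NN0_conj ρ w hw hlawH hz ⟨h, hh⟩, rfl⟩
  · obtain ⟨a, _, haa⟩ := Finset.mem_image.1 ha1
    refine ⟨a.1, a.2, ?_⟩
    rintro ⟨z, hz, hz2⟩
    apply ha1N
    have : z = a1 := by
      apply Subtype.ext
      rw [← haa]
      exact hz2
    rw [← this]; exact hz

/-- every right-orderable group with a law is Conrad right-orderable -/
theorem conrad_of_law {G : Type} [Group G] (lt : G → G → Prop) (hirr : ∀ a, ¬ lt a a)
    (htr : ∀ a b c, lt a b → lt b c → lt a c) (htot : ∀ a b, lt a b ∨ a = b ∨ lt b a)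
    (hr : ∀ a b c, lt a b → lt (a * c) (b * c))
    (k : ℕ) (v : FreeGroup (Fin k)) (hv : v ≠ 1) (hlawv : ∀ f : Fin k → G, FreeGroup.lift f v = 1) :
    ∃ lt : G → G → Prop,
        (∀ a, ¬ lt a a) ∧
        (∀ a b c, lt a b → lt b c → lt a c) ∧
        (∀ a b, lt a b ∨ a = b ∨ lt b a) ∧
        (∀ a b c, lt a b → lt (a * c) (b * c)) ∧
        (∀ f g, lt 1 f → lt 1 g → ∃ n : ℕ, lt f (f ^ (n + 1) * g)) := by
  obtain ⟨w, hw, hlaw⟩ := two_var k v hv hlawv
  obtain ⟨P, hP1, hP2, hP3, hP4⟩ := exists_cone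
    (fun A hne h1 => exists_germ lt hirr htr htot hr w hw hlaw A hne h1)
  refine ⟨fun a b => b * a⁻¹ ∈ P, ?_, ?_, ?_, ?_, ?_⟩
  · intro a h
    rw [mul_inv_cancel] at h
    exact hP1 h
  · intro a b c h1 h2
    have := hP3 _ h2 _ h1
    have e : c * b⁻¹ * (b * a⁻¹) = c * a⁻¹ := by group
    rwa [e] at this
  · intro a b
    by_cases hab : b * a⁻¹ = 1
    · right; left
      exact (mul_inv_eq_one.1 hab).symm
    · rcases hP2 _ hab with h | h
      · exact Or.inl h
      · right; right
        have e : (b * a⁻¹)⁻¹ = a * b⁻¹ := by group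
        rwa [e] at h
  · intro a b c h
    have e : b * c * (a * c)⁻¹ = b * a⁻¹ := by group
    rw [e]; exact h
  · intro f g hf hg
    rw [inv_one, mul_one] at hf hg
    exact ⟨1, hP4 f hf g hg⟩

end Pool.Agent.Helper580.Law
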